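import Pool.Agent.W952.Sat.Main

set_option autoImplicit false

/-!
# Nondeterministic programs with few guesses as families of deterministic programs
-/

open Finset

namespace Pool.Agent.W895.TN

open Pool.Agent.W952.Sat

/-- Nondeterministic branching programs that read words of length `n`.  In a node the program
queries one position of the word and proceeds to a node that depends on the symbol there, or it
guesses a bit and proceeds to a node that depends on this bit, or it stops (`true`: it accepts).
There is no restriction on the order and on the repetition of the queries. -/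
structure NProg (n : ℕ) where
  /-- the nodes -/
  Node : Type
  /-- there are finitely many of them -/
  [fintype : Fintype Node]
  /-- the first node -/
  start : Node
  /-- what is done in a node -/
  act : Node → (Fin n × (Sym → Node)) ⊕ ((Bool → Node) ⊕ Bool)

attribute [instance] NProg.fintype

/-- on the word `w` the program has an accepting computation from the node `s` with `t` queries
and `g` guesses -/
inductive NProg.Run {n : ℕ} (P : NProg n) (w : Fin n → Sym) : P.Node → ℕ → ℕ → Prop
  | accept {s : P.Node} (h : P.act s = Sum.inr (Sum.inr true)) : P.Run w s 0 0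
  | query {s : P.Node} {i : Fin n} {nxt : Sym → P.Node} {t g : ℕ}
      (h : P.act s = Sum.inl (i, nxt)) (r : P.Run w (nxt (w i)) t g) : P.Run w s (t + 1) g
  | guess {s : P.Node} {nxt : Bool → P.Node} {t g : ℕ} (b : Bool)
      (h : P.act s = Sum.inr (Sum.inl nxt)) (r : P.Run w (nxt b) t g) : P.Run w s t (g + 1)

variable {n G : ℕ}

/-- the deterministic program with the guesses `γ`; it answers `false` if the nondeterministic
program accepts -/
def det (hn : 0 < n) (P : NProg n) (γ : Fin G → Bool) : Prog n where
  Node := P.Node × Fin (G + 1)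
  start := (P.start, 0)
  act := fun s =>
    match P.act s.1 with
    | Sum.inl (i, nxt) => Sum.inl (i, fun c => (nxt c, s.2))
    | Sum.inr (Sum.inl nxt) =>
      if h : s.2.val < G then
        Sum.inl (⟨0, hn⟩, fun _ => (nxt (γ ⟨s.2.val, h⟩), ⟨s.2.val + 1, by omega⟩))
      else Sum.inr true
    | Sum.inr (Sum.inr b) => Sum.inr (!b)

theorem det_query (hn : 0 < n) (P : NProg n) (γ : Fin G → Bool) {s : P.Node} {j : Fin (G + 1)}
    {i : Fin n} {nxt : Sym → P.Node} (h : P.act s = Sum.inl (i, nxt)) :
    (det hn P γ).act (s, j) = Sum.inl (i, fun c => (nxt c, j)) := by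
  show (match P.act s with
    | Sum.inl (i, nxt) => Sum.inl (i, fun c => (nxt c, j))
    | Sum.inr (Sum.inl nxt) =>
      if h : j.val < G then
        Sum.inl (⟨0, hn⟩, fun _ => (nxt (γ ⟨j.val, h⟩), ⟨j.val + 1, by omega⟩))
      else Sum.inr true
    | Sum.inr (Sum.inr b) => Sum.inr (!b)) = _
  rw [h]

theorem det_guess (hn : 0 < n) (P : NProg n) (γ : Fin G → Bool) {s : P.Node} {j : Fin (G + 1)}
    {nxt : Bool → P.Node} (h : P.act s = Sum.inr (Sum.inl nxt)) :
    (det hn P γ).act (s, j) = if h : j.val < G then
        Sum.inl (⟨0, hn⟩, fun _ => (nxt (γ ⟨j.val, h⟩), ⟨j.val + 1, by omega⟩))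
      else Sum.inr true := by
  show (match P.act s with
    | Sum.inl (i, nxt) => Sum.inl (i, fun c => (nxt c, j))
    | Sum.inr (Sum.inl nxt) =>
      if h : j.val < G then
        Sum.inl (⟨0, hn⟩, fun _ => (nxt (γ ⟨j.val, h⟩), ⟨j.val + 1, by omega⟩))
      else Sum.inr true
    | Sum.inr (Sum.inr b) => Sum.inr (!b)) = _
  rw [h]

theorem det_stop (hn : 0 < n) (P : NProg n) (γ : Fin G → Bool) {s : P.Node} {j : Fin (G + 1)}
    {b : Bool} (h : P.act s = Sum.inr (Sum.inr b)) :
    (det hn P γ).act (s, j) = Sum.inr (!b) := by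
  show (match P.act s with
    | Sum.inl (i, nxt) => Sum.inl (i, fun c => (nxt c, j))
    | Sum.inr (Sum.inl nxt) =>
      if h : j.val < G then
        Sum.inl (⟨0, hn⟩, fun _ => (nxt (γ ⟨j.val, h⟩), ⟨j.val + 1, by omega⟩))
      else Sum.inr true
    | Sum.inr (Sum.inr b) => Sum.inr (!b)) = _
  rw [h]
  rfl

theorem det_card (hn : 0 < n) (P : NProg n) (γ : Fin G → Bool) :
    Fintype.card (det hn P γ).Node = Fintype.card P.Node * (G + 1) := by
  show Fintype.card (P.Node × Fin (G + 1)) = _
  rw [Fintype.card_prod, Fintype.card_fin]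

/-- completeness -/
theorem det_complete (hn : 0 < n) (P : NProg n) (w : Fin n → Sym) {s : P.Node} {t g : ℕ}
    (h : P.Run w s t g) : ∀ j : ℕ, (hj : j + g ≤ G) → ∃ bs : ℕ → Bool, ∀ γ : Fin G → Bool,
      (∀ a : Fin G, j ≤ a.val → a.val < j + g → γ a = bs a.val) →
      (det hn P γ).act (aft (det hn P γ) w (s, ⟨j, by omega⟩) (t + g)) = Sum.inr false := by
  induction h with
  | accept h =>
    intro j hj
    refine ⟨fun _ => false, fun γ _ => ?_⟩
    exact det_stop hn P γ h
  | @query s i nxt t g h r ih =>
    intro j hj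
    obtain ⟨bs, hbs⟩ := ih j hj
    refine ⟨bs, fun γ hγ => ?_⟩
    have h1 := hbs γ hγ
    have e : t + 1 + g = t + g + 1 := by omega
    rw [e, aft_succ, det_query hn P γ h]
    exact h1
  | @guess s nxt t g b h r ih =>
    intro j hj
    obtain ⟨bs, hbs⟩ := ih (j + 1) (by omega)
    refine ⟨fun a => if a = j then b else bs a, fun γ hγ => ?_⟩
    have h1 := hbs γ (fun a ha1 ha2 => by
      rw [hγ a (by omega) (by omega)]
      show (if a.val = j then b else bs a.val) = _
      rw [if_neg (by omega)])
    have hjG : j < G := by omega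
    have h2 : γ ⟨j, hjG⟩ = b := by
      rw [hγ ⟨j, hjG⟩ le_rfl (by show j < j + (g + 1); omega)]
      show (if j = j then b else bs j) = b
      rw [if_pos rfl]
    have e : t + (g + 1) = t + g + 1 := by omega
    rw [e, aft_succ, det_guess hn P γ h, dif_pos hjG]
    simp only [h2]
    exact h1

/-- soundness -/
theorem det_sound (hn : 0 < n) (P : NProg n) (w : Fin n → Sym) (γ : Fin G → Bool) :
    ∀ (T : ℕ) (s : P.Node) (j : Fin (G + 1)),
      (det hn P γ).act (aft (det hn P γ) w (s, j) T) = Sum.inr false →
      ∃ t g, t ≤ T ∧ j.val + g ≤ G ∧ P.Run w s t g := by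
  have hstop : ∀ (s : P.Node) (j : Fin (G + 1)), (det hn P γ).act (s, j) = Sum.inr false →
      P.act s = Sum.inr (Sum.inr true) := by
    intro s j h
    rcases hs : P.act s with ⟨i, nxt⟩ | nxt | b
    · rw [det_query hn P γ hs] at h
      cases h
    · rw [det_guess hn P γ hs] at h
      by_cases hj : j.val < G
      · rw [dif_pos hj] at h
        cases h
      · rw [dif_neg hj] at h
        exact absurd (Sum.inr.inj h) (by decide)
    · rw [det_stop hn P γ hs] at h
      cases b
      · exact absurd (Sum.inr.inj h) (by decide)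
      · rfl
  intro T
  induction T with
  | zero =>
    intro s j h
    have h1 := hstop s j h
    exact ⟨0, 0, le_rfl, by omega, .accept h1⟩
  | succ T ih =>
    intro s j h
    rw [aft_succ] at h
    rcases hs : P.act s with ⟨i, nxt⟩ | nxt | b
    · rw [det_query hn P γ hs] at h
      obtain ⟨t, g, h1, h2, h3⟩ := ih _ _ h
      exact ⟨t + 1, g, by omega, h2, .query hs h3⟩
    · rw [det_guess hn P γ hs] at h
      by_cases hj : j.val < G
      · rw [dif_pos hj] at h
        obtain ⟨t, g, h1, h2, h3⟩ := ih _ _ h
        refine ⟨t, g + 1, by omega, ?_, .guess _ hs h3⟩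
        simp only at h2
        omega
      · rw [dif_neg hj] at h
        have h1 := hstop s j h
        rw [hs] at h1
        simp at h1
    · rw [det_stop hn P γ hs] at h
      have h1 := hstop s j h
      exact ⟨0, 0, by omega, by omega, .accept h1⟩

end Pool.Agent.W895.TN
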